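import Pool.Agent.helper74.VQ.SpecE

set_option autoImplicit false

/-!
Row vq:VMA (the mass of the rows of the kernels).
-/

open scoped MatrixGroups ContDiff Topology UpperHalfPlane ComplexConjugate ENNReal
open UpperHalfPlane MeasureTheory Filter Set

namespace Pool.Agent.VQ

open Pool.Agent.RS

noncomputable section

/-- from extended norms to norms -/
theorem VMA_en (x : ℂ) (c : ℝ) (hc : 0 ≤ c) (h : ‖x‖ₑ ≤ ENNReal.ofReal c) : ‖x‖ ≤ c := by
  rw [← ofReal_norm] at h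
  exact (ENNReal.ofReal_le_ofReal_iff hc).1 h

/-- Cauchy-Schwarz -/
theorem VMA_cs {α : Type} [MeasurableSpace α] (μ : Measure α) (f g : α → ℂ) (hf : Measurable f) (hg : Measurable g) (a b : ℝ) (ha : 0 ≤ a) (hb : 0 ≤ b)
    (h1 : ∫⁻ x, ‖f x‖ₑ ^ 2 ∂μ ≤ ENNReal.ofReal a) (h2 : ∫⁻ x, ‖g x‖ₑ ^ 2 ∂μ ≤ ENNReal.ofReal b) : ‖∫ x, f x * g x ∂μ‖ ≤ Real.sqrt a * Real.sqrt b := by
  have h3 : ‖∫ x, f x * g x ∂μ‖ₑ ≤ ∫⁻ x, ‖f x‖ₑ * ‖g x‖ₑ ∂μ := by
    refine (enorm_integral_le_lintegral_enorm _).trans (lintegral_mono fun x => ?_)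
    rw [enorm_mul]
  have h4 : ∫⁻ x, ‖f x‖ₑ * ‖g x‖ₑ ∂μ ≤ (∫⁻ x, ‖f x‖ₑ ^ (2:ℝ) ∂μ) ^ (1 / (2:ℝ)) * (∫⁻ x, ‖g x‖ₑ ^ (2:ℝ) ∂μ) ^ (1 / (2:ℝ)) :=
    ENNReal.lintegral_mul_le_Lp_mul_Lq μ (Real.HolderConjugate.two_two) hf.enorm.aemeasurable hg.enorm.aemeasurable
  have h5 : ∀ (f : α → ℂ) (a : ℝ), 0 ≤ a → ∫⁻ x, ‖f x‖ₑ ^ 2 ∂μ ≤ ENNReal.ofReal a → (∫⁻ x, ‖f x‖ₑ ^ (2:ℝ) ∂μ) ^ (1 / (2:ℝ)) ≤ ENNReal.ofReal (Real.sqrt a) := by
    intro f a ha h
    have e : ∫⁻ x, ‖f x‖ₑ ^ (2:ℝ) ∂μ = ∫⁻ x, ‖f x‖ₑ ^ 2 ∂μ := lintegral_congr fun x => ENNReal.rpow_two _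
    rw [e, Real.sqrt_eq_rpow, ← ENNReal.ofReal_rpow_of_nonneg ha (by norm_num)]
    exact ENNReal.rpow_le_rpow h (by norm_num)
  refine VMA_en _ _ (by positivity) ?_
  rw [ENNReal.ofReal_mul (Real.sqrt_nonneg a)]
  exact h3.trans (h4.trans (mul_le_mul' (h5 f a ha h1) (h5 g b hb h2)))

/-- `us` is part of the packet coefficients of the beam -/
theorem VMA_us (D : Dyn) (ch : ℝ → ℝ) (A : Prm) (R : ℝ) (p x : SL(2, ℝ) × ℝ) :
    us D ch A R p x = 0 ∨ (x.2 ∈ Wi 2 R ∧ us D ch A R p x = conj (QF D.U ch A.z R (psi D ch A.z A.z1 R (A.sg R) p) x)) := by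
  unfold us
  split_ifs with h
  · right
    refine ⟨h.2.1, ?_⟩
    unfold QF
    rw [← integral_conj]
    refine integral_congr_ae (Eventually.of_forall fun z => ?_)
    simp only [map_mul, Complex.conj_conj]
  · left
    rfl

/-- measurability of the window -/
theorem VMA_GW (R : ℝ) : MeasurableSet (GW 2 R) := MeasurableSet.univ.prod measurableSet_Icc

/-- functions of class `FP` for the plane -/
theorem VMA_fp (hVDM : VDM_stmt) (hD : Dm ⊥ univ) (hPW : ∀ R : ℝ, PW univ 2 R = GW 2 R) (R : ℝ) (hR0 : 0 < R) (hR : R ^ (-(1 / 4) : ℝ) ≤ 1 / 16) (v : SL(2, ℝ) × ℝ → ℂ) (hv : FP ⊥ univ v) :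
    ∫⁻ p in GW 2 R, ‖v p‖ₑ ^ 2 ∂mP = ENNReal.ofReal (nP univ 2 R v) := by
  obtain ⟨b, hb⟩ := hv.bdd
  obtain ⟨c, hc⟩ := hv.supp
  have hW : Wi 2 R ⊆ Icc (-1) 1 := by
    intro E hE
    have h0 : 0 ≤ R ^ (-(1 / 4) : ℝ) := Real.rpow_nonneg hR0.le _
    exact ⟨by linarith [hE.1], by linarith [hE.2]⟩
  obtain ⟨-, -, -, -, h5⟩ := hVDM ⊥ univ hD
  obtain ⟨-, -, -, -, -, h6⟩ := h5 (Wi 2 R) measurableSet_Icc
  have hfin := h6 c
  unfold nP
  rw [hPW]
  have hint : IntegrableOn (fun p : SL(2, ℝ) × ℝ => ‖v p‖ ^ 2) (GW 2 R) mP := by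
    have h7 : IntegrableOn (fun p : SL(2, ℝ) × ℝ => ‖v p‖ ^ 2) ({g : SL(2, ℝ) | dist (g • I : ℍ) I ≤ c} ×ˢ (Wi 2 R ∩ Icc (-1) 1)) mP := by
      refine Measure.integrableOn_of_bounded (M := b ^ 2) hfin.ne (hv.meas.norm.pow_const 2).aestronglyMeasurable ?_
      refine Eventually.of_forall fun p => ?_
      rw [Real.norm_eq_abs, abs_of_nonneg (by positivity)]
      exact pow_le_pow_left₀ (norm_nonneg _) (hb p) 2
    refine h7.of_forall_sdiff_eq_zero (VMA_GW R) ?_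
    intro p hp
    have hp2 : p.2 ∈ Wi 2 R := hp.1.2
    by_contra hne
    have hne' : v p ≠ 0 := by
      intro h0
      apply hne
      rw [h0]
      simp
    exact hp.2 ⟨hc p (Set.mem_univ _) hne', hp2, hW hp2⟩
  rw [ofReal_integral_eq_lintegral_ofReal hint (Eventually.of_forall fun p => by positivity)]
  refine lintegral_congr fun p => ?_
  rw [ENNReal.ofReal_pow (norm_nonneg _), ofReal_norm]

/-- the mass of a row of `us` -/
theorem VMA_row (D : Dyn) (ch : ℝ → ℝ) (A : Prm) (R : ℝ) (p : SL(2, ℝ) × ℝ) (c : ENNReal)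
    (h : ∫⁻ x in GW 2 R, ‖QF D.U ch A.z R (psi D ch A.z A.z1 R (A.sg R) p) x‖ₑ ^ 2 ∂mP ≤ c) : ∫⁻ x, ‖us D ch A R p x‖ₑ ^ 2 ∂mP ≤ c := by
  refine le_trans ?_ h
  rw [← lintegral_indicator (VMA_GW R)]
  refine lintegral_mono fun x => ?_
  rcases VMA_us D ch A R p x with h0 | ⟨h1, h2⟩
  · rw [h0]
    simp
  · have hx : x ∈ GW 2 R := ⟨Set.mem_univ _, h1⟩
    rw [Set.indicator_of_mem hx, h2, RCLike.enorm_conj]

/-- the numbers -/
theorem VMA_num (R : ℝ) (hR : 7 ^ 42 ≤ R) : (1 + R ^ (-(1 / 5) : ℝ)) * (1 + R ^ (-(1 / 6) : ℝ)) ^ 2 ≤ 1 + R ^ (-(1 / 7) : ℝ) := by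
  have hR1 : (1 : ℝ) ≤ R := le_trans (by norm_num) hR
  have hR0 : (0 : ℝ) < R := by linarith
  have h1 : R ^ (-(1 / 5) : ℝ) ≤ R ^ (-(1 / 6) : ℝ) := Real.rpow_le_rpow_of_exponent_le hR1 (by norm_num)
  have h0 : 0 < R ^ (-(1 / 6) : ℝ) := Real.rpow_pos_of_pos hR0 _
  have h00 : 0 < R ^ (-(1 / 5) : ℝ) := Real.rpow_pos_of_pos hR0 _
  have h2 : R ^ (-(1 / 6) : ℝ) ≤ 1 := Real.rpow_le_one_of_one_le_of_nonpos hR1 (by norm_num)
  have h3 : 7 * R ^ (-(1 / 6) : ℝ) ≤ R ^ (-(1 / 7) : ℝ) := by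
    have e : R ^ (-(1 / 7) : ℝ) = R ^ (1 / 42 : ℝ) * R ^ (-(1 / 6) : ℝ) := by
      rw [← Real.rpow_add hR0]
      norm_num
    rw [e]
    refine mul_le_mul_of_nonneg_right ?_ h0.le
    have h4 : ((7 : ℝ) ^ 42) ^ (1 / 42 : ℝ) ≤ R ^ (1 / 42 : ℝ) := Real.rpow_le_rpow (by positivity) hR (by norm_num)
    have h5 : ((7 : ℝ) ^ 42) ^ (1 / 42 : ℝ) = 7 := by
      have e : (1 / 42 : ℝ) = (((42 : ℕ) : ℝ))⁻¹ := by norm_num
      rw [e]
      exact Real.pow_rpow_inv_natCast (by norm_num) (by norm_num)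
    rwa [h5] at h4
  obtain ⟨x, hx⟩ : ∃ x, x = R ^ (-(1 / 6) : ℝ) := ⟨_, rfl⟩
  obtain ⟨y, hy⟩ : ∃ y, y = R ^ (-(1 / 5) : ℝ) := ⟨_, rfl⟩
  rw [← hx] at h0 h1 h2 h3 ⊢
  rw [← hy] at h1 h00 ⊢
  have h6 : (1 + y) * (1 + x) ^ 2 ≤ (1 + x) * (1 + x) ^ 2 := mul_le_mul_of_nonneg_right (by linarith) (by positivity)
  have h7 : (1 + x) * (1 + x) ^ 2 ≤ 1 + 7 * x := by nlinarith [mul_nonneg h0.le h0.le, mul_le_mul_of_nonneg_left h2 h0.le, mul_le_mul_of_nonneg_left (mul_le_mul_of_nonneg_left h2 h0.le) h0.le]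
  linarith

/-- a small computation with square roots -/
theorem VMA_sq (N a c n : ℝ) (hN : 0 ≤ N) (ha : 0 ≤ a) (hc : 0 ≤ c) (hn : n ≤ c ^ 2 * N) (h : N ≤ Real.sqrt a * Real.sqrt n) : N ≤ a * c ^ 2 := by
  have h1 : Real.sqrt n ≤ c * Real.sqrt N := by
    have h2 : c * Real.sqrt N = Real.sqrt (c ^ 2 * N) := by
      rw [Real.sqrt_mul (by positivity), Real.sqrt_sq hc]
    rw [h2]
    exact Real.sqrt_le_sqrt hn
  have h3 : N ≤ Real.sqrt a * (c * Real.sqrt N) := h.trans (mul_le_mul_of_nonneg_left h1 (Real.sqrt_nonneg _))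
  rcases hN.eq_or_lt with h0 | h0
  · rw [← h0]
    positivity
  · have hs : 0 < Real.sqrt N := Real.sqrt_pos.2 h0
    have h4 : Real.sqrt N * Real.sqrt N = N := Real.mul_self_sqrt hN
    have h5 : Real.sqrt N ≤ Real.sqrt a * c := by
      by_contra hlt
      push Not at hlt
      have h6 : Real.sqrt a * c * Real.sqrt N < Real.sqrt N * Real.sqrt N := mul_lt_mul_of_pos_right hlt hs
      have h7 : Real.sqrt a * (c * Real.sqrt N) = Real.sqrt a * c * Real.sqrt N := by ring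
      linarith
    have h6 : Real.sqrt N * Real.sqrt N ≤ (Real.sqrt a * c) * (Real.sqrt a * c) := mul_le_mul h5 h5 hs.le (by positivity)
    have h7 : (Real.sqrt a * c) * (Real.sqrt a * c) = a * c ^ 2 := by
      have := Real.mul_self_sqrt ha
      calc (Real.sqrt a * c) * (Real.sqrt a * c) = (Real.sqrt a * Real.sqrt a) * c ^ 2 := by ring
        _ = a * c ^ 2 := by rw [this]
    linarith

/-- `Adm` is monotone in the constant -/
theorem VMA_adm {C C' : ℝ} {A : Prm} (h : Adm C' A) (h1 : 0 < C) (hC : C ≤ C') : Adm C A := by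
  have e0 := h.e3
  have m1 : (1 : ℝ) ≤ A.m := by exact_mod_cast h.m
  have C0 : 0 < C' := lt_of_lt_of_le h1 hC
  have z0 : 0 < A.z := lt_of_lt_of_le (mul_pos C0 e0) h.z
  have z10 : 0 < A.z1 := lt_of_lt_of_le (mul_pos C0 z0) h.z1
  have z20 : 0 < A.z2 := lt_of_lt_of_le (mul_pos C0 z10) h.z2
  exact ⟨h.e3, h.m, (mul_le_mul_of_nonneg_right hC e0.le).trans h.z, (mul_le_mul_of_nonneg_right hC z0.le).trans h.z1, (mul_le_mul_of_nonneg_right hC z10.le).trans h.z2,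
    (mul_le_mul_of_nonneg_right hC (by positivity)).trans h.up, h.tu⟩

/-- the sup norm of the kernels -/
theorem VMA_sup (D : Dyn) (ch : ℝ → ℝ) (A : Prm) (R s M : ℝ) (hs : 0 ≤ s) (hM : 0 ≤ M)
    (h0 : ∀ p q, ‖pr D ch A R p q‖ ≤ M) (h1 : ∀ p, ∫⁻ q, ‖us D ch A R p q‖ₑ ∂mP ≤ ENNReal.ofReal s) : ∀ (k : ℕ) (p q : SL(2, ℝ) × ℝ), ‖usm D ch A R k p q‖ ≤ s ^ k * M := by
  intro k
  induction k with
  | zero =>
    intro p q
    rw [pow_zero, one_mul]
    exact h0 p q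
  | succ k ih =>
    intro p q
    refine VMA_en _ _ (by positivity) ?_
    change ‖∫ x, us D ch A R p x * usm D ch A R k x q ∂mP‖ₑ ≤ _
    refine (enorm_integral_le_lintegral_enorm _).trans ?_
    have h2 : ∫⁻ x, ‖us D ch A R p x * usm D ch A R k x q‖ₑ ∂mP ≤ ∫⁻ x, ‖us D ch A R p x‖ₑ * ENNReal.ofReal (s ^ k * M) ∂mP := by
      refine lintegral_mono fun x => ?_
      rw [enorm_mul]
      refine mul_le_mul_right ?_ _
      rw [← ofReal_norm]
      exact ENNReal.ofReal_le_ofReal (ih x q)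
    refine h2.trans ?_
    rw [lintegral_mul_const' _ _ ENNReal.ofReal_ne_top]
    refine (mul_le_mul_left (h1 p) _).trans ?_
    rw [← ENNReal.ofReal_mul hs]
    refine ENNReal.ofReal_le_ofReal (le_of_eq ?_)
    ring

theorem VMA_proof (hVNP : VNP_stmt) (hVQA : VQA_stmt) (hVQS : VQS_stmt) (hVTN : VTN_stmt) (hVUM : VUM_stmt) (hVOX : VOX_stmt) (hVUS : VUS_stmt) (hVUL : VUL_stmt) (hVUB : VUB_stmt) (hVDM : VDM_stmt) : VMA_stmt := by
  obtain ⟨hX1, hX2, hX3, -, hX5, hX6⟩ := hVOX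
  obtain ⟨C1, hC1, h1⟩ := hVNP
  obtain ⟨C2, hC2, h2⟩ := hVTN
  obtain ⟨C3, hC3, h3⟩ := hVUM
  obtain ⟨C4, hC4, h4⟩ := hVUS
  obtain ⟨C5, hC5, h5⟩ := hVUL
  obtain ⟨C, hCe⟩ : ∃ C, C = C1 + C2 + C3 + 2 * C4 + 2 * C5 + 8 := ⟨_, rfl⟩
  refine ⟨C, by linarith, ?_⟩
  intro ch B A hch hA
  have hC8 : 8 ≤ C := by linarith
  have e0 : 0 < A.e3 := hA.e3
  have m1 : (1 : ℝ) ≤ A.m := by exact_mod_cast hA.m
  have C0 : 0 < C := by linarith
  have z0 : 0 < A.z := lt_of_lt_of_le (mul_pos C0 e0) hA.z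
  have z10 : 0 < A.z1 := lt_of_lt_of_le (mul_pos C0 z0) hA.z1
  have z20 : 0 < A.z2 := lt_of_lt_of_le (mul_pos C0 z10) hA.z2
  have hz1 : A.z ≤ A.z1 := by nlinarith [hA.z1]
  have hz2 : A.z1 ≤ A.z2 := by nlinarith [hA.z2]
  have hz3 : A.z2 ≤ A.m * A.z2 := by nlinarith
  have hmz : A.m * A.z2 ≤ 1 / 8 := by
    have h8 : 8 * (A.m * A.z2) ≤ C * (A.m * A.z2) := mul_le_mul_of_nonneg_right hC8 (by positivity)
    have := hA.up
    linarith
  have hz18 : A.z1 ≤ 1 / 8 := by linarith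
  have hz8 : A.z ≤ 1 / 8 := by linarith
  have hRg : ∀ C', 1 ≤ C' → C' ≤ C → Rg C' A.e3 A.z A.z1 := by
    intro C' h h'
    refine ⟨e0.le, z0, hz1, ?_, ?_⟩
    · exact ((mul_le_mul_of_nonneg_right h' e0.le).trans hA.z).trans hz1
    · have h6 := (mul_le_mul_of_nonneg_right h' z10.le).trans hA.z2
      linarith
  obtain ⟨R1, hR1, g1⟩ := h1 ch A.e3 A.z A.z1 B hch (hRg C1 hC1 (by linarith))
  obtain ⟨R2, hR2, g2⟩ := h2 ch B A hch (VMA_adm hA (by linarith) (by linarith))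
  obtain ⟨R3, hR3, g3⟩ := h3 ch B A hch (VMA_adm hA (by linarith) (by linarith))
  obtain ⟨R4, hR4, g4⟩ := h4 ch B A hch (VMA_adm hA (by linarith) (by linarith))
  obtain ⟨R5, hR5, g5⟩ := h5 ch A.e3 A.z A.z1 1 B hch (hRg C5 hC5 (by linarith))
  obtain ⟨R6, hR6, g6⟩ := hVQA ch A.z hch z0 hz8
  obtain ⟨R7, hR7, g7⟩ := hVQS ch A.z hch z0 hz8
  have h742 : (0 : ℝ) < 7 ^ 42 := by positivity
  refine ⟨R1 + R2 + R3 + R4 + R5 + R6 + R7 + 65536 + 7 ^ 42, by linarith, ?_⟩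
  intro R δ Γ D hR hD hδ k p hk hkm
  have hRb : (65536 : ℝ) ≤ R := by linarith
  have hRpos : 0 < R := by linarith
  have hR1' : 1 ≤ R := by linarith
  have hD' : OKD ⊥ δ B D := hX1 Γ δ B D hD
  have hPU : PU ⊥ D.U := (hVUB ⊥ δ B D.U hD'.pot hδ).1
  obtain ⟨f2, -⟩ := g2 R δ ⊥ univ D (by linarith) hX2 hD' hδ
  obtain ⟨f31, f32, -, f34, f35, f36, f37⟩ := g3 R δ ⊥ univ D (by linarith) hX2 hD' hδ
  obtain ⟨f4, -⟩ := g4 R δ Γ D (by linarith) hD hδ
  obtain ⟨f61, -⟩ := g6 R ⊥ univ D.U (by linarith) hX2 hPU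
  obtain ⟨-, -, -, f7, -, -⟩ := g7 R ⊥ univ D.U (by linarith) hX2 hPU
  have hlog : 0 ≤ Real.log R := Real.log_nonneg hR1'
  have hsg0 : 0 ≤ A.sg R := mul_nonneg e0.le hlog
  have hR16 : R ^ (-(1 / 4) : ℝ) ≤ 1 / 16 := by
    have h8 : R ^ (-(1 / 4) : ℝ) ≤ (65536 : ℝ) ^ (-(1 / 4) : ℝ) := Real.rpow_le_rpow_of_nonpos (by norm_num) hRb (by norm_num)
    have h9 : (65536 : ℝ) ^ (-(1 / 4) : ℝ) = 1 / 16 := by
      have e : (65536 : ℝ) = (16 : ℝ) ^ (4 : ℝ) := by norm_num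
      rw [e, ← Real.rpow_mul (by norm_num)]
      norm_num
    rwa [h9] at h8
  have hpr : ∀ p q, ‖pr D ch A R p q‖ ≤ R ^ (2 + C5 * A.z1) := by
    intro p q
    unfold pr
    split_ifs with h
    · exact (g5 R δ 0 Γ D p q (by linarith) hD hδ le_rfl (mul_nonneg e0.le hlog) ⟨Set.mem_univ _, h.1⟩ ⟨Set.mem_univ _, h.2.1⟩).2.2.2.1
    · rw [norm_zero]
      positivity
  have hC5 : C5 * A.z1 ≤ 1 / 2 := by
    have h8 : (2 * C5) * A.z1 ≤ C * A.z1 := mul_le_mul_of_nonneg_right (by linarith) z10.le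
    have := hA.z2
    linarith
  have hC4 : C4 * (A.m * A.z2) ≤ 1 / 2 := by
    have h8 : (2 * C4) * (A.m * A.z2) ≤ C * (A.m * A.z2) := mul_le_mul_of_nonneg_right (by linarith) (by positivity)
    have := hA.up
    linarith
  constructor
  · obtain ⟨k', rfl⟩ : ∃ k', k = k' + 1 := ⟨k - 1, by omega⟩
    by_cases hp : p ∈ GW 2 R
    swap
    · have h0 : ∀ q, usm D ch A R (k' + 1) p q = 0 := by
        intro q
        by_contra hne
        exact hp (f35 _ _ _ hne).1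
      have h00 : ∫⁻ q, ‖usm D ch A R (k' + 1) p q‖ₑ ^ 2 ∂mP = 0 := by
        have e : ∀ q, ‖usm D ch A R (k' + 1) p q‖ₑ ^ 2 = 0 := by
          intro q
          rw [h0 q]
          simp
        rw [lintegral_congr e, lintegral_zero]
      rw [h00]
      exact bot_le
    have hp8 : |p.2| ≤ 1 / 8 := by
      have h8 := hp.2
      rw [abs_le]
      exact ⟨by linarith [h8.1], by linarith [h8.2]⟩
    have hR38 : R ^ (-(1 / 2) + A.z1) ≤ 1 / 4 := by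
      have h8 : R ^ (-(1 / 2) + A.z1) ≤ R ^ (-(1 / 4) : ℝ) := Real.rpow_le_rpow_of_exponent_le hR1' (by linarith)
      linarith
    have hFH : FH ⊥ univ (psi D ch A.z A.z1 R (A.sg R) p) := (hX6 D ch A.z A.z1 R (A.sg R) δ Γ B p hch z10 hz18 (by linarith) hD hδ hp8 hR38).1
    have hrow : ∫⁻ x, ‖us D ch A R p x‖ₑ ^ 2 ∂mP ≤ ENNReal.ofReal ((1 + R ^ (-(1 / 5) : ℝ)) * (R ^ 2 / (2 * Real.pi))) := by
      apply VMA_row
      rw [VMA_fp hVDM hX2 hX5 R hRpos hR16 _ ((f7 _ hFH).2)]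
      refine ENNReal.ofReal_le_ofReal ?_
      exact ((f61 _ hFH).1).trans (g1 R δ (A.sg R) Γ D p (by linarith) hD hδ hp8 hsg0 le_rfl).1
    obtain ⟨v, hv⟩ : ∃ v : SL(2, ℝ) × ℝ → ℂ, v = fun q => conj (usm D ch A R (k' + 1) p q) := ⟨_, rfl⟩
    have hK := f32 (k' + 1)
    have hnv : ∀ q, ‖v q‖ = ‖usm D ch A R (k' + 1) p q‖ := by
      intro q
      rw [hv]
      exact RCLike.norm_conj _
    have hv0 : ∀ q, v q ≠ 0 → usm D ch A R (k' + 1) p q ≠ 0 := by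
      intro q hq h0
      apply hq
      rw [hv]
      change conj (usm D ch A R (k' + 1) p q) = 0
      rw [h0, map_zero]
    have hvm : Measurable v := by
      rw [hv]
      exact Complex.continuous_conj.measurable.comp (hK.meas.comp measurable_prodMk_left)
    have hvFP : FP ⊥ univ v := by
      refine hX3 v hvm ?_ ?_
      · obtain ⟨b, hb⟩ := hK.bdd
        exact ⟨b, fun q => by rw [hnv]; exact hb p q⟩
      · obtain ⟨T, hT⟩ := hK.range
        refine ⟨T + dist (p.1 • I : ℍ) I, fun q hq => ?_⟩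
        have h8 := hT p q (hv0 q hq)
        unfold dW at h8
        have h9 := dist_triangle (q.1 • I : ℍ) (p.1 • I) I
        rw [dist_comm (q.1 • I : ℍ) (p.1 • I)] at h9
        linarith
    have hvGW : ∀ q, q ∉ GW 2 R → v q = 0 := by
      intro q hq
      by_contra hne
      exact hq (f35 _ _ _ (hv0 q hne)).2
    obtain ⟨N, hN⟩ : ∃ N, N = nP univ 2 R v := ⟨_, rfl⟩
    have hN0 : 0 ≤ N := by
      rw [hN]
      exact integral_nonneg fun q => by positivity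
    have hN1 : ∫⁻ q, ‖usm D ch A R (k' + 1) p q‖ₑ ^ 2 ∂mP = ENNReal.ofReal N := by
      rw [hN, ← VMA_fp hVDM hX2 hX5 R hRpos hR16 v hvFP, ← lintegral_indicator (VMA_GW R)]
      refine lintegral_congr fun q => ?_
      by_cases hq : q ∈ GW 2 R
      · rw [Set.indicator_of_mem hq, ← ofReal_norm, ← ofReal_norm, hnv]
      · rw [Set.indicator_of_notMem hq]
        have h8 := hvGW q hq
        have h9 : ‖usm D ch A R (k' + 1) p q‖ = 0 := by rw [← hnv, h8, norm_zero]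
        rw [← ofReal_norm, h9]
        simp
    have hN2 : Op (usm D ch A R (k' + 1)) v p = (N : ℂ) := by
      have e1 : N = ∫ q, ‖v q‖ ^ 2 ∂mP := by
        rw [hN]
        unfold nP
        rw [hX5, ← integral_indicator (VMA_GW R)]
        refine integral_congr_ae (Eventually.of_forall fun q => ?_)
        by_cases hq : q ∈ GW 2 R
        · exact Set.indicator_of_mem hq _
        · change (GW 2 R).indicator (fun q => ‖v q‖ ^ 2) q = ‖v q‖ ^ 2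
          rw [Set.indicator_of_notMem hq, hvGW q hq]
          simp
      rw [e1, ← integral_complex_ofReal]
      refine integral_congr_ae (Eventually.of_forall fun q => ?_)
      change usm D ch A R (k' + 1) p q * v q = ((‖v q‖ ^ 2 : ℝ) : ℂ)
      rw [hnv, hv]
      change usm D ch A R (k' + 1) p q * conj (usm D ch A R (k' + 1) p q) = _
      rw [Complex.mul_conj']
      push_cast
      rfl
    have hN3 := f37 k' v p hvFP
    have hw : FP ⊥ univ (Op (usm D ch A R k') v) := f36 _ _ (f32 k') (f35 k') hvFP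
    have hw2 := f2 k' v (by omega) hvFP
    have hw0 : 0 ≤ nP univ 2 R (Op (usm D ch A R k') v) := integral_nonneg fun q => by positivity
    have hle : N ≤ Real.sqrt ((1 + R ^ (-(1 / 5) : ℝ)) * (R ^ 2 / (2 * Real.pi))) * Real.sqrt (nP univ 2 R (Op (usm D ch A R k') v)) := by
      have h8 : Op (us D ch A R) (Op (usm D ch A R k') v) p = ∫ x, us D ch A R p x * (GW 2 R).indicator (Op (usm D ch A R k') v) x ∂mP := by
        refine integral_congr_ae (Eventually.of_forall fun x => ?_)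
        by_cases hx : x ∈ GW 2 R
        · change _ = us D ch A R p x * (GW 2 R).indicator (Op (usm D ch A R k') v) x
          rw [Set.indicator_of_mem hx]
        · have h9 : us D ch A R p x = 0 := by
            by_contra hne
            exact hx (f34 _ _ hne).2
          change us D ch A R p x * _ = us D ch A R p x * _
          rw [h9, zero_mul, zero_mul]
      have h10 : ‖(N : ℂ)‖ = N := by rw [Complex.norm_real, Real.norm_eq_abs, abs_of_nonneg hN0]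
      rw [← h10, ← hN2, hN3, h8]
      refine VMA_cs mP _ _ (f31.meas.comp measurable_prodMk_left) (hw.meas.indicator (VMA_GW R)) _ _ (by positivity) hw0 hrow ?_
      rw [← VMA_fp hVDM hX2 hX5 R hRpos hR16 _ hw, ← lintegral_indicator (VMA_GW R)]
      refine lintegral_mono fun x => ?_
      by_cases hx : x ∈ GW 2 R
      · rw [Set.indicator_of_mem hx, Set.indicator_of_mem hx]
      · rw [Set.indicator_of_notMem hx, Set.indicator_of_notMem hx]
        simp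
    rw [hN1]
    refine ENNReal.ofReal_le_ofReal ?_
    have hfin := VMA_sq N _ (1 + R ^ (-(1 / 6) : ℝ)) _ hN0 (by positivity) (by positivity) (by rw [hN]; exact hw2) hle
    refine hfin.trans ?_
    have hnum := VMA_num R (by linarith)
    have e : (1 + R ^ (-(1 / 5) : ℝ)) * (R ^ 2 / (2 * Real.pi)) * (1 + R ^ (-(1 / 6) : ℝ)) ^ 2 = ((1 + R ^ (-(1 / 5) : ℝ)) * (1 + R ^ (-(1 / 6) : ℝ)) ^ 2) * (R ^ 2 / (2 * Real.pi)) := by ring
    rw [e]
    exact mul_le_mul_of_nonneg_right hnum (by positivity)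
  · intro q
    refine (VMA_sup D ch A R (R ^ (C4 * A.z2)) (R ^ (2 + C5 * A.z1)) (by positivity) (by positivity) hpr f4 k p q).trans ?_
    rw [← Real.rpow_natCast, ← Real.rpow_mul hRpos.le, ← Real.rpow_add hRpos]
    have h3 : R ^ 3 = R ^ (3 : ℝ) := by norm_cast
    rw [h3]
    refine Real.rpow_le_rpow_of_exponent_le hR1' ?_
    have hk' : (k : ℝ) ≤ A.m := by exact_mod_cast hkm
    have h8 : C4 * A.z2 * k ≤ C4 * (A.m * A.z2) := by
      have h9 : C4 * A.z2 * k ≤ C4 * A.z2 * A.m := mul_le_mul_of_nonneg_left hk' (by positivity)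
      linarith
    linarith

end

end Pool.Agent.VQ
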