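import Pool.Agent.helper11.VQ.Spec3c

set_option autoImplicit false

/-!
Row vq:BC1 (one frequency).
-/

open scoped MatrixGroups ContDiff Topology UpperHalfPlane ComplexConjugate ENNReal
open UpperHalfPlane MeasureTheory Filter Set

namespace Pool.Agent.VQ

open Pool.Agent.RS
open Pool.Agent.RPQ (CEig mean VV IsOp IsMul OProj wrd PJ nst mks MO Net Cl CkB PN upd Eqd)

noncomputable section

/-- a cut-off function exists -/
theorem BC1_cut : ∃ ch : ℝ → ℝ, CH ch := by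
  refine ⟨fun s => Real.smoothTransition (2 - 2 * s), ?_, ?_, ?_, ?_⟩
  · exact Real.smoothTransition.contDiff.comp (contDiff_const.sub (contDiff_const.mul contDiff_id))
  · intro s hs
    exact Real.smoothTransition.one_of_one_le (by linarith)
  · intro s hs
    exact Real.smoothTransition.zero_of_nonpos (by linarith)
  · intro s
    exact ⟨Real.smoothTransition.nonneg _, Real.smoothTransition.le_one _⟩

/-- the potential bounds of a dynamics can be exchanged -/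
theorem BC1_okd {Γ : Subgroup SL(2, ℝ)} {δ δ2 : ℝ} {B B2 : ℕ → ℝ} {D : Dyn} (h : OKD Γ δ B D) (hp : Pot Γ δ2 B2 D.U) : OKD Γ δ2 B2 D :=
  { h with pot := hp }

/-- monotonicity in `δ` -/
theorem BC1_pot {Γ : Subgroup SL(2, ℝ)} {δ δ2 : ℝ} {B : ℕ → ℝ} {U : ℍ → ℝ} (h : Pot Γ δ B U) (hd : δ ≤ δ2) : Pot Γ δ2 B U :=
  { h with near := fun g v hv n hn => (h.near g v hv n hn).trans hd }

/-- numbers -/
theorem BC1_num (i : ℕ) (hi : 1 ≤ i) : Real.sqrt i ^ (-10 : ℝ) = 1 / ((i ^ 5 : ℕ) : ℝ) ∧ Real.sqrt i ^ (-4 : ℝ) = (i : ℝ) ^ (-2 : ℝ) := by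
  have h0 : (0 : ℝ) < i := by exact_mod_cast hi
  have h1 : ∀ k : ℝ, Real.sqrt i ^ k = (i : ℝ) ^ (k / 2) := by
    intro k
    rw [Real.sqrt_eq_rpow, ← Real.rpow_mul h0.le]
    have e : 1 / 2 * k = k / 2 := by ring
    rw [e]
  constructor
  · rw [h1]
    have e : (-10 : ℝ) / 2 = -((5 : ℕ) : ℝ) := by norm_num
    rw [e, Real.rpow_neg h0.le, Real.rpow_natCast]
    push_cast
    rw [one_div]
  · rw [h1]
    norm_num

theorem BC1_proof (hPRV : PRV_stmt) (hIDY : IDY_stmt) (hPOT : POT_stmt) (hSEV : SEV_stmt) (hTLV : TLV_stmt) (hGIV : GIV_stmt) (hRND : RND_stmt) (hRSB : RSB_stmt) : BC1_stmt := by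
  intro Γ F κ δ' hΓ hF hκ hδ'
  obtain ⟨ch, hch⟩ := BC1_cut
  obtain ⟨δ0, hδ0, hP⟩ := hPRV Γ F κ ch hΓ hF hκ hch
  obtain ⟨δ1, hδ1, hI⟩ := hIDY Γ hΓ
  obtain ⟨δ, hδe⟩ : ∃ δ, δ = min δ' (min δ0 δ1) := ⟨_, rfl⟩
  have hδp : 0 < δ := by rw [hδe]; exact lt_min hδ' (lt_min hδ0 hδ1)
  have hd' : δ ≤ δ' := by rw [hδe]; exact min_le_left _ _
  have hd0 : δ ≤ δ0 := by rw [hδe]; exact (min_le_right _ _).trans (min_le_left _ _)
  have hd1 : δ ≤ δ1 := by rw [hδe]; exact (min_le_right _ _).trans (min_le_right _ _)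
  obtain ⟨η, hη0, hη1, hPo⟩ := hPOT δ hδp
  refine ⟨δ, η / 2, hδp, hd', by linarith, ?_⟩
  intro h e hh he
  obtain ⟨v0, C1, hv0, hC1, hP2⟩ := hP h e hh he
  refine ⟨v0, C1, hv0, hC1, ?_⟩
  intro C0 k0 J p χ f0 hFam hf0 hf0i hf0b
  obtain ⟨⟨b, hb⟩, -⟩ := hSEV Γ κ C0 (η / 2) k0 J p χ f0 hΓ hFam hf0 hf0i hf0b
  obtain ⟨B, hB⟩ := hPo b
  have h2η : 2 * (η / 2) = η := by ring
  have hpot : ∀ ζ : ℕ × ℕ → ℝ, (∀ q, |ζ q| ≤ 1) → Pot Γ δ B (fun z => Real.exp (f0 z + rV χ ζ z)) ∧ ∀ K : ℕ, Pot Γ δ B (fun z => Real.exp (bs χ f0 K ζ z)) := by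
    intro ζ hζ
    obtain ⟨⟨ha1, ha2, ha3, ha4⟩, hK⟩ := hb ζ hζ
    refine ⟨hB Γ _ ha1 ha2 (fun n hn => ?_) ha4, ?_⟩
    · have := ha3 n hn
      rwa [h2η] at this
    · intro K
      obtain ⟨hb1, hb2, hb3, hb4⟩ := hK K
      refine hB Γ _ hb1 hb2 (fun n hn => ?_) hb4
      have := hb3 n hn
      rwa [h2η] at this
  refine ⟨B, hpot, ?_⟩
  intro T0 E0 hT0 hE0
  have hC0 : 1 ≤ C0 := hFam.c0
  obtain ⟨a, R0, ha, hR0, hP3⟩ := hP2 T0 E0 C0 4 B hT0 hE0 (by linarith) (by norm_num)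
  obtain ⟨R1, hR1, hT⟩ := hTLV Γ κ C0 (η / 2) k0 J p χ f0 hΓ hFam
  obtain ⟨R2, hR2, hG⟩ := hGIV a k0 ha
  refine ⟨⌈(max R0 (max R1 R2)) ^ 2⌉₊, ?_⟩
  intro i hi
  have hmax0 : 0 ≤ max R0 (max R1 R2) := by
    have := le_max_left R0 (max R1 R2)
    linarith
  have hsq : max R0 (max R1 R2) ≤ Real.sqrt i := by
    apply Real.le_sqrt_of_sq_le
    have h1 := Nat.le_ceil ((max R0 (max R1 R2)) ^ 2)
    have h2 : ((⌈(max R0 (max R1 R2)) ^ 2⌉₊ : ℕ) : ℝ) ≤ i := by exact_mod_cast hi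
    exact h1.trans h2
  have hRa : R0 ≤ Real.sqrt i := (le_max_left _ _).trans hsq
  have hRb : R1 ≤ Real.sqrt i := ((le_max_left _ _).trans (le_max_right _ _)).trans hsq
  have hRc : R2 ≤ Real.sqrt i := ((le_max_right _ _).trans (le_max_right _ _)).trans hsq
  have hi1 : 1 ≤ i := by
    rcases Nat.eq_zero_or_pos i with h0 | h0
    · exfalso
      rw [h0, Nat.cast_zero, Real.sqrt_zero] at hRa
      linarith
    · exact h0
  obtain ⟨hn10, hn4⟩ := BC1_num i hi1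
  obtain ⟨K, hK0, hK1, hK2, hK3, hK4, hK5, hK6, hK7⟩ := hG (Real.sqrt i) hRc
  obtain ⟨hT1, hT2⟩ := hT (Real.sqrt i) K hRb hK2 hK3
  obtain ⟨T, hTc, r, v', hr, hv', hru, hrd⟩ := hRND J K (i ^ 5) (Nat.one_le_pow _ _ hi1)
  have hD : ∀ b : T, ∃ D : Dyn, D.U = (fun z => Real.exp (bs χ f0 K (v' b) z)) ∧ OKD Γ δ1 B D := by
    intro b
    exact hI B _ (BC1_pot ((hpot (v' b) (hv' b)).2 K) hd1)
  choose D hDU hDO using hD
  have hDOδ : ∀ b : T, OKD Γ δ B (D b) := by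
    intro b
    refine BC1_okd (hDO b) ?_
    rw [hDU b]
    exact (hpot (v' b) (hv' b)).2 K
  have hDO0 : ∀ b : T, OKD Γ δ0 B (D b) := fun b => BC1_okd (hDO b) (BC1_pot (hDOδ b).pot hd0)
  refine ⟨K, fun ζ => v' (r ζ), hK2, hK3, fun ζ q => hv' (r ζ) q, ?_, ?_⟩
  · intro ζ hζ q hq1 hq2 hq3
    rw [hn10]
    exact hrd ζ hζ q hq1 hq2 hq3
  have hE : ∀ b : T, PJ (J K) {ξ | UWL (D b) F h (e / 8) v0 C1 T0 E0 ∧ ¬ Gd Γ F h e (Real.sqrt i) (fun z => Real.log ((D b).U z) + (wt χ K (v' b) z + ak K * VV (χ K) ξ z))} ≤ ENNReal.ofReal ((i : ℝ) ^ (-2 : ℝ)) := by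
    intro b
    by_cases hU : UWL (D b) F h (e / 8) v0 C1 T0 E0
    · have h1 := hP3 (Real.sqrt i) (rk K) (ak K) (J K) (p K) (χ K) (wt χ K (v' b)) (D b) hRa hK4 hK5 hK6 hK7 (hFam.net K hK0) (hDO0 b) hU (hT1 (v' b) (hv' b))
      rw [hn4] at h1
      refine le_trans (measure_mono ?_) h1
      intro ξ hξ
      exact hξ.2
    · have h1 : {ξ : Fin (J K) → ℝ | UWL (D b) F h (e / 8) v0 C1 T0 E0 ∧ ¬ Gd Γ F h e (Real.sqrt i) (fun z => Real.log ((D b).U z) + (wt χ K (v' b) z + ak K * VV (χ K) ξ z))} = ∅ := by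
        ext ξ
        constructor
        · intro hξ
          exact absurd hξ.1 hU
        · intro hξ
          exact absurd hξ (Set.notMem_empty _)
      rw [h1, measure_empty]
      exact bot_le
  have hfin := hRSB K (J K) T r (ENNReal.ofReal ((i : ℝ) ^ (-2 : ℝ))) (fun b => {ξ | UWL (D b) F h (e / 8) v0 C1 T0 E0 ∧ ¬ Gd Γ F h e (Real.sqrt i) (fun z => Real.log ((D b).U z) + (wt χ K (v' b) z + ak K * VV (χ K) ξ z))}) hr hru hE
  refine le_trans (measure_mono ?_) hfin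
  intro ζ hζ
  obtain ⟨hζ1, hζ2, μ, φ, hμ, hμ1, hφ, hlt⟩ := hζ
  refine ⟨hζ2 (D (r ζ)) (hDOδ (r ζ)) (hDU (r ζ)), ?_⟩
  intro hGd
  have hclose := hT2 ζ (v' (r ζ)) hζ1 (hv' (r ζ)) (fun q hq1 hq2 hq3 => by
    rw [hn10]
    exact hrd ζ hζ1 q hq1 hq2 hq3)
  have hinv : QU.Inv Γ (fun z => f0 z + rV χ ζ z) := ((hb ζ hζ1).1).2.1
  have h3 := hGd (fun z => f0 z + rV χ ζ z) μ φ hinv (fun z => by
    have h4 := hclose z
    have h5 : Real.log ((D (r ζ)).U z) = bs χ f0 K (v' (r ζ)) z := by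
      rw [hDU (r ζ)]
      exact Real.log_exp _
    rw [← h5] at h4
    exact h4) hμ hμ1 hφ
  exact absurd hlt (not_lt.mpr h3)

end

end Pool.Agent.VQ
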